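import Pool.Agent.Q279.OT.Ker
import Pool.Agent.Q279.OT.Sub
import Pool.Agent.Q279.OT.Tree

/-!
# Ordered actions and local indicability: 2-complexes with arbitrary attaching words

Definitions (`Pool.Agent.Q279.OT.Base`, `.Ker`, `.Sub`; `LocInd` from `Pool.Agent.TH625.LOG.LI`):

* `Pres V E`: a 2-complex with one vertex, 1-cells `V`, and 2-cells `E` attached along arbitrary
  words `word e` in the letters `x_v` (`(v, true)`) and `x_v⁻¹` (`(v, false)`); `P.G` is its
  fundamental group, with generators `V` and relators `P.rel e`, finite or infinite in number;
* `P.sv e k`: the 1-cell at the side `k` of the 2-cell `e`; `P.sg e k`: the initial point of this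
  1-cell in the universal covering, with base point `1`;
* `P.OrderedTest Ω ρ`: `ρ` is an action of `P.G` on `Ω` by order automorphisms, and every 2-cell `e`
  has a point `w e` and a side `c e` with `(sg e (c e))⁻¹ (w e) < (sg e' k')⁻¹ (w e')` for all the
  other sides `k'` of 2-cells `e'` at the same 1-cell as the side `c e` of `e`;
* `PolyAffine G Ω o ρ`: the group of order automorphisms induced by `G` is locally indicable, or
  `Ω = Ω₁ ×ₗ ℝ` where `G` acts on `Ω₁` in such a way and maps the fibres by increasing affine maps,
  which may depend on the fibre;
* `LocInd G`: every nontrivial finitely generated subgroup of `G` maps onto `ℤ`;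
* `Map P' P`: a map of 2-complexes, 1-cells to 1-cells and 2-cells to 2-cells (for example the
  inclusion of a subcomplex); `P.sub S`: the subcomplex of all 1-cells and the 2-cells in `S`;
* `P.attach w`: further 2-cells are attached along the words `w x`; `P.Contractible`: trivial
  fundamental group and injective integral boundary operator `C₂ → C₁`;
* `ofLOG L`: the 2-complex of a labelled oriented graph `L` (`Pool.Agent.TH625.LOG.Core`), with
  attaching words `x_ini x_lab x_ter⁻¹ x_lab⁻¹`; `L.Conn`: connected.
-/

set_option autoImplicit false

namespace Pool.Agent.Results.MP_cf50d6_gt.ArbitraryRelators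

open Pool.Agent.Q279.OT
open Pool.Agent.TH625.LOG (LocInd LOG)

/-- Let `P` be a 2-complex whose fundamental group acts by order automorphisms on a totally ordered
set such that every 2-cell has an extremal corner, where the action is built up from a locally
indicable group by affine steps.  Then every 2-complex `P'` that has a map to `P` which is
injective on the 2-cells has a locally indicable fundamental group; in particular this holds for
all subcomplexes of `P`.  If `P` is finite, and becomes simply connected by attaching as many
2-cells as it has 1-cells in excess of the 2-cells, then it is a subcomplex of the contractible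
complex obtained; for example the complexes of all finite labelled oriented trees are such
subcomplexes. -/
theorem result (V E : Type) (P : Pres V E) (Ω : Type) [o : LinearOrder Ω]
    (ρ : P.G →* (Ω ≃o Ω)) (h : P.OrderedTest Ω ρ) (hρ : PolyAffine P.G Ω o ρ) :
    (∀ (V' E' : Type) (P' : Pres V' E') (f : Map P' P), Function.Injective f.fE →
      LocInd P'.G) ∧
    (∀ S : Set E, LocInd (P.sub S).G) ∧
    (∀ [Fintype V] [DecidableEq V] [Fintype E] (X : Type) [Fintype X] (w : X → List (V × Bool)),
      Fintype.card V = Fintype.card E + Fintype.card X → Subsingleton (P.attach w).G →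
        (P.attach w).Contractible) ∧
    ∀ (V₁ E₁ : Type) [Fintype V₁] [DecidableEq V₁] [Fintype E₁] (L : LOG V₁ E₁), L.Conn →
      Fintype.card V₁ = Fintype.card E₁ + 1 → ∀ v₀ : V₁,
        ((ofLOG L).attach fun _ : Unit => [(v₀, true)]).Contractible := by
  have key : ∀ (V' E' : Type) (P' : Pres V' E') (f : Map P' P), Function.Injective f.fE →
      LocInd P'.G := fun V' E' P' f hf => locInd P' _ (map_test f hf ρ h) (hρ.comp f.hom)
  refine ⟨key, fun S => key V S (P.sub S) (P.incl S) Subtype.val_injective, ?_,
    fun V₁ E₁ _ _ _ L hL hc v₀ => tree_contractible L hL hc v₀⟩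
  intro _ _ _ X _ w hcard hs
  exact contractible_of_card _ hs (by rw [Fintype.card_sum, hcard])

end Pool.Agent.Results.MP_cf50d6_gt.ArbitraryRelators
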